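import Pool.Agent.D0H61.RO.Stm
import Pool.Agent.D0H65.CC.One

/-!
Module ONE4 of the project RO (for helper61).
-/

set_option autoImplicit false

open Filter Topology MeasureTheory Finset

namespace Pool.Agent.D0H96.RO

open Pool.Agent.D0H61.CC Pool.Agent.D0H61.RO Pool.Agent.D0H65.CC

/-- `Bg` with the constants `1 / (k + 1)`. -/
theorem bg_iff (C : ℕ) (A : Set ℕ) : Bg C A ↔
    ∃ k : ℕ, ∃ᶠ N : ℕ in atTop, 1 / ((k : ℝ) + 1) * (N : ℝ) ≤ (upTo A N).card * Real.log N ^ C := by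
  constructor
  · rintro ⟨δ, hδ, h⟩
    obtain ⟨k, hk⟩ := exists_nat_one_div_lt hδ
    exact ⟨k, h.mono fun N hN =>
      (mul_le_mul_of_nonneg_right hk.le (Nat.cast_nonneg N)).trans hN⟩
  · rintro ⟨k, h⟩
    exact ⟨1 / ((k : ℝ) + 1), by positivity, h⟩

theorem bg_meas' {Ω : Type*} [MeasurableSpace Ω] (C : ℕ) (S : Ω → Set ℕ)
    (hS : ∀ n, MeasurableSet {ω | n ∈ S ω}) : MeasurableSet {ω | Bg C (S ω)} := by
  have e : {ω | Bg C (S ω)} = ⋃ k : ℕ, ⋂ N0 : ℕ, ⋃ N : ℕ, ⋃ (_ : N0 ≤ N),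
      {ω | 1 / ((k : ℝ) + 1) * (N : ℝ) ≤ (upTo (S ω) N).card * Real.log N ^ C} := by
    ext ω
    rw [Set.mem_iUnion]
    change Bg C (S ω) ↔ _
    rw [bg_iff]
    refine exists_congr fun k => ?_
    rw [frequently_atTop, Set.mem_iInter]
    refine forall_congr' fun N0 => ?_
    simp only [Set.mem_iUnion]
    constructor
    · rintro ⟨N, h1, h2⟩
      exact ⟨N, h1, h2⟩
    · rintro ⟨N, h1, h2⟩
      exact ⟨N, h1, h2⟩
  rw [e]
  refine MeasurableSet.iUnion fun k => MeasurableSet.iInter fun N0 => MeasurableSet.iUnion fun N =>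
    MeasurableSet.iUnion fun _ => ?_
  exact measurableSet_le measurable_const ((card_meas S hS N).mul_const _)

/-- Module ONE4. -/
theorem t_ONE4 : S_CORE4 → S_DEN → S_WIN4 → S_ONE4 := by
  intro hCore hDen hWin C A hA κ γ a b hκ0 hκ1 hγ
  refine hDen {α | Bg (C + 2) (oneS A κ γ a b α)} (bg_meas' (C + 2) _ (oneS_meas A κ γ a b)) ?_
  intro R hR
  obtain ⟨c₀, hc₀, c, hc, η₀, hη₀, hη₀1, hcore⟩ := hCore κ γ a b R hκ0 hκ1 hγ hR
  refine ⟨c, hc, η₀, hη₀, ?_⟩
  intro α₀ η hα1 hα2 hη hηη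
  have hev := hcore (C + 1) α₀ η hα1 hα2 hη hηη
  obtain ⟨δ, hδ, hw⟩ := hWin C A hA η hη (hηη.trans hη₀1)
  set I : Set ℝ := Set.Icc α₀ (α₀ * (1 + 3 * η)) with hIdef
  let T : ℕ → Set ℝ := fun N => {α : ℝ | α ∈ I ∧ δ * (N : ℝ) ≤ (win A η N).card * Real.log N ^ C ∧
    c₀ * ((win A η N).card : ℝ) ≤ Mc κ γ a b (win A η N) α * Real.log N ^ 2}
  have hTm : ∀ N, MeasurableSet (T N) := by
    intro N
    have e : T N = I ∩ ({α : ℝ | δ * (N : ℝ) ≤ (win A η N).card * Real.log N ^ C} ∩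
      {α : ℝ | c₀ * ((win A η N).card : ℝ) ≤ Mc κ γ a b (win A η N) α * Real.log N ^ 2}) := rfl
    rw [e]
    refine measurableSet_Icc.inter (MeasurableSet.inter ?_ ?_)
    · exact MeasurableSet.const _
    · exact measurableSet_le measurable_const ((Mc_meas κ γ a b _).mul_const _)
  have hlogev : ∀ᶠ N : ℕ in atTop, 1 / δ ≤ Real.log N :=
    (Real.tendsto_log_atTop.comp tendsto_natCast_atTop_atTop).eventually_ge_atTop _
  have hfreq : ∃ᶠ N in atTop, ENNReal.ofReal (c * η) ≤ volume (T N) := by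
    refine (hw.and_eventually (hev.and hlogev)).mono ?_
    rintro N ⟨h1, h2, h6⟩
    have hlog0 : 0 < Real.log N := lt_of_lt_of_le (by positivity) h6
    have h7 : 1 ≤ δ * Real.log N := by
      rw [div_le_iff₀ hδ] at h6
      linarith
    have h8 : (N : ℝ) ≤ (win A η N).card * Real.log N ^ (C + 1) := by
      calc (N : ℝ) = 1 * N := (one_mul _).symm
        _ ≤ (δ * Real.log N) * N := mul_le_mul_of_nonneg_right h7 (Nat.cast_nonneg _)
        _ = (δ * N) * Real.log N := by ring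
        _ ≤ ((win A η N).card * Real.log N ^ C) * Real.log N :=
            mul_le_mul_of_nonneg_right h1 hlog0.le
        _ = (win A η N).card * Real.log N ^ (C + 1) := by ring
    have h3 := h2 (win A η N) (fun n hn => by
      classical
      have := (Finset.mem_filter.1 hn).2
      exact ⟨this.2.1, this.2.2⟩) h8
    refine h3.trans (measure_mono ?_)
    rintro α ⟨h4, h5⟩
    exact ⟨h4, h1, h5⟩
  have hlim := limsup_meas T hTm I (by rw [hIdef, Real.volume_Icc]; exact ENNReal.ofReal_ne_top)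
    (fun N α h => h.1) _ hfreq
  refine hlim.trans (measure_mono ?_)
  intro α hα
  refine ⟨?_, ?_⟩
  · change Bg (C + 2) (oneS A κ γ a b α)
    refine ⟨c₀ * δ / 2, by positivity, ?_⟩
    have htt : Tendsto (fun N : ℕ => 2 * N) atTop atTop :=
      tendsto_atTop_mono (fun N => by simp only [id]; omega) tendsto_id
    refine htt.frequently ?_
    refine (Frequently.and_eventually hα (eventually_ge_atTop 1)).mono ?_
    rintro N ⟨⟨-, h1, h2⟩, hN⟩
    have hN' : (1:ℝ) ≤ N := by exact_mod_cast hN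
    have hlog0 : 0 ≤ Real.log N := Real.log_nonneg hN'
    have hlog3 : Real.log N ≤ Real.log ((2 * N : ℕ) : ℝ) := by
      refine Real.log_le_log (by linarith) ?_
      push_cast; linarith
    have hMc : (Mc κ γ a b (win A η N) α : ℝ) ≤ (upTo (oneS A κ γ a b α) (2 * N)).card := by
      classical
      exact_mod_cast Finset.card_le_card (by
        intro n hn
        unfold upTo
        rw [Finset.mem_filter] at hn ⊢
        have h3 := Finset.mem_filter.1 hn.1
        exact ⟨h3.1, h3.2.1, hn.2⟩)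
    calc c₀ * δ / 2 * ((2 * N : ℕ) : ℝ) = c₀ * (δ * N) := by push_cast; ring
      _ ≤ c₀ * ((win A η N).card * Real.log N ^ C) := mul_le_mul_of_nonneg_left h1 hc₀.le
      _ = (c₀ * (win A η N).card) * Real.log N ^ C := by ring
      _ ≤ (Mc κ γ a b (win A η N) α * Real.log N ^ 2) * Real.log N ^ C :=
          mul_le_mul_of_nonneg_right h2 (pow_nonneg hlog0 _)
      _ = Mc κ γ a b (win A η N) α * Real.log N ^ (C + 2) := by ring
      _ ≤ (upTo (oneS A κ γ a b α) (2 * N)).card * Real.log N ^ (C + 2) :=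
          mul_le_mul_of_nonneg_right hMc (pow_nonneg hlog0 _)
      _ ≤ (upTo (oneS A κ γ a b α) (2 * N)).card * Real.log ((2 * N : ℕ) : ℝ) ^ (C + 2) :=
          mul_le_mul_of_nonneg_left (pow_le_pow_left₀ hlog0 hlog3 _) (Nat.cast_nonneg _)
  · obtain ⟨N, hN⟩ := Frequently.exists hα
    exact hN.1

end Pool.Agent.D0H96.RO
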