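import Pool.Agent.D0H61.RO.Stm
import Pool.Agent.D0H65.CP.One2

/-!
Module PW4 of the project RO (for helper61).
-/

set_option autoImplicit false

open Filter Topology MeasureTheory Finset

namespace Pool.Agent.D0H96.RO

open Pool.Agent.D0H61.CC Pool.Agent.D0H61.CP Pool.Agent.D0H61.RO Pool.Agent.D0H65.CP

/-- Module PW4. -/
theorem t_PW4 : S_ZP → S_PW4 := by
  intro hZP h hh η hη hη1
  classical
  obtain ⟨β, hβ⟩ : ∃ β : ℝ, β = (1 + η) ^ (1 / h : ℝ) - 1 := ⟨_, rfl⟩
  have hh' : (0 : ℝ) < h := by exact_mod_cast hh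
  have hβ0 : 0 < β := by
    rw [hβ, sub_pos]
    exact Real.one_lt_rpow (by linarith) (by positivity)
  have hβ1 : β ≤ 1 := by
    have := root_le_two hh hη hη1
    linarith
  refine ⟨3 * β / 8, by positivity, ?_⟩
  have hlogev : ∀ᶠ M : ℕ in atTop, 4 / β + 1 ≤ Real.log M :=
    (Real.tendsto_log_atTop.comp tendsto_natCast_atTop_atTop).eventually_ge_atTop _
  filter_upwards [hZP 2 (by norm_num) 0 1, hlogev, eventually_ge_atTop 2] with M hM hlog hM2
  have hMr : (2 : ℝ) ≤ M := by exact_mod_cast hM2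
  obtain ⟨y, hy⟩ : ∃ y : ℝ, y = (1 + η) ^ (1 / h : ℝ) * M := ⟨_, rfl⟩
  have hyM : y = M + β * M := by rw [hy, hβ]; ring
  have h1 := hM M y 0 (by linarith) (by rw [hyM]; nlinarith) (by rw [hyM]; nlinarith) (by simp)
  have hex0 : ∀ x : ℝ, ex (0 * Real.log x) = 1 := by
    intro x
    unfold ex
    simp
  have h2 : (∑ p ∈ prs M y, ((Real.log p : ℝ) : ℂ) * ex (0 * Real.log p)) =
      ((∑ p ∈ prs M y, Real.log p : ℝ) : ℂ) := by
    push_cast
    refine Finset.sum_congr rfl fun p _ => ?_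
    rw [hex0, mul_one]
  have h3 : (∫ x in (M : ℝ)..y, ex (0 * Real.log x)) = ((y - M : ℝ) : ℂ) := by
    simp only [hex0]
    rw [intervalIntegral.integral_const]
    simp
  rw [h2, h3, ← Complex.ofReal_sub, Complex.norm_real, Real.norm_eq_abs, pow_one] at h1
  have hlog0 : 0 < Real.log M := by
    have : 0 < 4 / β := by positivity
    linarith
  have h4 := (abs_le.1 h1).1
  have h5 : ∑ p ∈ prs M y, Real.log p ≤ (prs M y).card * (2 * Real.log M) := by
    have h6 : ∀ p ∈ prs (M : ℝ) y, Real.log p ≤ 2 * Real.log M := by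
      intro p hp
      have hp' : p ∈ pw h η M := by
        unfold pw
        rw [← hy]
        exact hp
      obtain ⟨g1, -, -, g4⟩ := mem_pw hp'
      have g5 : (p : ℝ) ≤ (M : ℝ) ^ 2 := by
        have g6 := root_le_two hh hη hη1
        calc (p : ℝ) ≤ (1 + η) ^ (1 / h : ℝ) * M := g4
          _ ≤ 2 * M := mul_le_mul_of_nonneg_right g6 (by linarith)
          _ ≤ (M : ℝ) ^ 2 := by nlinarith
      calc Real.log p ≤ Real.log ((M : ℝ) ^ 2) :=
            Real.log_le_log (by exact_mod_cast g1) g5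
        _ = 2 * Real.log M := by rw [Real.log_pow]; norm_num
    have h7 := Finset.sum_le_card_nsmul (prs (M : ℝ) y) (fun p => Real.log p) (2 * Real.log M) h6
    rw [nsmul_eq_mul] at h7
    exact h7
  have hpw : pw h η M = prs M y := by
    unfold pw
    rw [hy]
  rw [hpw]
  have h8 : (M : ℝ) / Real.log M ≤ β / 4 * M := by
    rw [div_le_iff₀ hlog0]
    have h9 : 4 / β ≤ Real.log M := by linarith
    rw [div_le_iff₀ hβ0] at h9
    nlinarith
  have h10 : 3 * β / 4 * M ≤ (prs M y).card * (2 * Real.log M) := by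
    have : y - M = β * M := by rw [hyM]; ring
    linarith
  have h11 : (prs M y).card * (2 * Real.log M) = 2 * ((prs M y).card * Real.log M) := by ring
  rw [h11] at h10
  have h12 : 3 * β / 4 * (M : ℝ) = 2 * (3 * β / 8 * M) := by ring
  rw [h12] at h10
  linarith

end Pool.Agent.D0H96.RO
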